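import Mathlib

namespace Pool.Agent.Results.MP_f836a2_nt.Counter

open Finset PowerSeries Filter
open scoped PowerSeries.WithPiTopology

/-- The infinite product `(q^a; q^m)_∞ = ∏_{i ≥ 0} (1 - q^(a + m i))` in `ℤ⟦q⟧`. -/
noncomputable def poch (a m : ℕ) : ℤ⟦X⟧ := ∏' i : ℕ, (1 - X ^ (a + m * i))

/-- `N_k = k (3k+1) / 2`. -/
def N (k : ℕ) : ℕ := k * (3 * k + 1) / 2

/-- The truncated pentagonal sum `P_k`. -/
noncomputable def P (k : ℕ) : ℤ⟦X⟧ :=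
  ∑ i ∈ Icc (1 - (k : ℤ)) k, (-1) ^ i.natAbs * X ^ (i * (3 * i - 1) / 2).toNat

/-- The series `F_k`; `invOfUnit (poch 1 1) 1` is `1 / (q;q)_∞`. -/
noncomputable def F (k : ℕ) : ℤ⟦X⟧ :=
  (-1) ^ (k - 1) * (P k * invOfUnit (poch 1 1) 1 - 1) * (poch 1 7 * poch 6 7 * poch 7 7)

/-- `c_k(n)`. -/
noncomputable def c (k n : ℕ) : ℤ := coeff n (F k)

theorem mult (a m : ℕ) (ha : 1 ≤ a) (hm : 1 ≤ m) :
    Multipliable fun i : ℕ => (1 - X ^ (a + m * i) : ℤ⟦X⟧) := by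
  simp_rw [sub_eq_add_neg]
  apply WithPiTopology.multipliable_one_add_of_tendsto_order_atTop_nhds_top
  refine ENat.tendsto_nhds_top_iff_natCast_lt.mpr (fun n => Filter.eventually_atTop.mpr ⟨n, ?_⟩)
  intro i hi
  rw [order_neg, order_X_pow]
  norm_cast
  nlinarith

theorem trunc (a m n : ℕ) {K M : ℕ} (hn : n ≤ a + m * K) (h : K ≤ M) :
    (X : ℤ⟦X⟧) ^ n ∣ ∏ i ∈ range M, (1 - X ^ (a + m * i)) - ∏ i ∈ range K, (1 - X ^ (a + m * i)) := by
  induction M, h using Nat.le_induction with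
  | base => simp
  | succ M h ih =>
    rw [prod_range_succ, mul_sub, mul_one, sub_right_comm]
    exact dvd_sub ih ((pow_dvd_pow X (by nlinarith)).mul_left _)

theorem approx (a m n K : ℕ) (ha : 1 ≤ a) (hm : 1 ≤ m) (hn : n ≤ a + m * K) :
    (X : ℤ⟦X⟧) ^ n ∣ poch a m - ∏ i ∈ range K, (1 - X ^ (a + m * i)) := by
  rw [X_pow_dvd_iff]
  intro j hj
  rw [map_sub, sub_eq_zero]
  have h1 := (WithPiTopology.tendsto_iff_coeff_tendsto _ _ _ _).1
    (mult a m ha hm).hasProd.tendsto_prod_nat j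
  refine tendsto_nhds_unique h1 (tendsto_atTop_of_eventually_const (i₀ := K) fun M hM => ?_)
  have := X_pow_dvd_iff.1 (trunc a m n hn hM) j hj
  rwa [map_sub, sub_eq_zero] at this

theorem c15 : c 1 5 = 0 := by
  obtain ⟨u, hu⟩ := approx 1 1 6 5 le_rfl le_rfl (by norm_num)
  obtain ⟨v, hv⟩ := approx 1 7 6 1 le_rfl (by norm_num) (by norm_num)
  obtain ⟨w, hw⟩ := approx 6 7 6 0 (by norm_num) (by norm_num) (by norm_num)
  obtain ⟨z, hz⟩ := approx 7 7 6 0 (by norm_num) (by norm_num) (by norm_num)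
  have h0 : constantCoeff (poch 1 1) = ((1 : ℤˣ) : ℤ) := by
    rw [eq_add_of_sub_eq hu]; simp [prod_range_succ]
  have hI := mul_invOfUnit (poch 1 1) 1 h0
  have hP : P 1 = 1 - X := by
    have : Icc (1 - ((1 : ℕ) : ℤ)) ((1 : ℕ) : ℤ) = {0, 1} := by decide
    rw [P, this]; simp; ring
  simp only [prod_range_succ, range_zero, prod_empty] at hu hv hw hz
  norm_num at hu hv hw hz
  have hx : Ideal.Quotient.mk (Ideal.span {(X : ℤ⟦X⟧) ^ 6}) X ^ 6 = 0 := by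
    rw [← map_pow, Ideal.Quotient.eq_zero_iff_mem]; exact Ideal.mem_span_singleton_self _
  have key : (X : ℤ⟦X⟧) ^ 6 ∣ F 1 - (X ^ 2 + X ^ 4) := by
    rw [← Ideal.mem_span_singleton, ← Ideal.Quotient.eq]
    rw [F, hP, eq_add_of_sub_eq hv, eq_add_of_sub_eq hw, eq_add_of_sub_eq hz]
    generalize invOfUnit (poch 1 1) 1 = I at hI
    rw [eq_add_of_sub_eq hu] at hI
    have hI' := congrArg (Ideal.Quotient.mk (Ideal.span {(X : ℤ⟦X⟧) ^ 6})) hI
    simp only [map_mul, map_add, map_sub, map_pow, map_one, hx, zero_mul, zero_add, map_neg] at hI' ⊢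
    generalize Ideal.Quotient.mk (Ideal.span {(X : ℤ⟦X⟧) ^ 6}) X = x at *
    generalize Ideal.Quotient.mk (Ideal.span {(X : ℤ⟦X⟧) ^ 6}) I = y at *
    have h1 : (1 - x - x ^ 2 + x ^ 5) * y = 1 := by
      linear_combination hI' + (-1 - x + x ^ 2 + x ^ 3 + x ^ 4 - x ^ 7 - x ^ 8 + x ^ 9) * y * hx
    have h2 : y = 1 + x + 2 * x ^ 2 + 3 * x ^ 3 + 5 * x ^ 4 + 7 * x ^ 5 := by
      linear_combination (1 + x + 2 * x ^ 2 + 3 * x ^ 3 + 5 * x ^ 4 + 7 * x ^ 5) * h1 +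
        (11 + 5 * x - 3 * x ^ 2 - 5 * x ^ 3 - 7 * x ^ 4) * y * hx
    rw [h2]
    linear_combination (-9 + 7 * x) * hx
  have := X_pow_dvd_iff.1 key 5 (by norm_num)
  simpa [c, coeff_X_pow] using this

theorem result : ¬ ∀ k : ℕ, 1 ≤ k →
    (∀ n, (n < N k ∨ n = N k + 1) → c k n = 0) ∧
    (∀ n, (n = N k ∨ N k + 2 ≤ n) → 0 < c k n) := by
  intro h
  have := (h 1 le_rfl).2 5 (Or.inr (by norm_num [N]))
  rw [c15] at this
  exact lt_irrefl _ this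

end Pool.Agent.Results.MP_f836a2_nt.Counter
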